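import Pool.Agent.Q260.SS.Upper

/-! The largest number of main vertices in a star set: `M(n) = max 1 (n - 4)`. -/

namespace Pool.Agent.Results.MP_bb681f_co.MaxMainVertices

open Finset Pool.Agent.Q260.SS

lemma fullSum {V : Type} [Fintype V] {G : SimpleGraph V} {l : ℝ} {X : Finset V} (v : V)
    (hv : v ∈ X) (z : V → ℝ) (hz : ∀ i, nb G z i = l * z i) (h0 : ∀ i ∈ X, i ≠ v → z i = 0)
    (hs : ∑ i, z i ≠ 0) : v ∈ mainVerts G l X := by
  classical
  unfold mainVerts
  rw [Finset.mem_filter]
  refine ⟨hv, (isMain_induce _ _).2 ⟨z, ⟨?_, fun i _ => hz i⟩, hs⟩⟩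
  intro i hi
  have h1 : ¬ (i ∉ X ∨ i = v) := hi
  push Not at h1
  exact h0 i h1.1 h1.2

lemma mainVerts_subset {V : Type} [Fintype V] (G : SimpleGraph V) (l : ℝ) (X : Finset V) :
    mainVerts G l X ⊆ X := by
  classical
  unfold mainVerts
  exact Finset.filter_subset _ _

section complete

variable (n : ℕ)

lemma nb_top {n : ℕ} (z : Fin n → ℝ) (i : Fin n) :
    nb (⊤ : SimpleGraph (Fin n)) z i = ∑ j, z j - z i := by
  rw [nb_eq]
  have h : ∀ j, (c (bb (⊤ : SimpleGraph (Fin n)) i j) : ℝ) * z j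
      = z j - if i = j then z j else 0 := by
    intro j
    by_cases hij : i = j
    · subst hij
      rw [bb_self, c_false]
      simp
    · have : bb (⊤ : SimpleGraph (Fin n)) i j = true := bb_true.2 (by
        rw [SimpleGraph.top_adj]
        exact hij)
      rw [this]
      simp [hij, c]
  simp_rw [h]
  rw [Finset.sum_sub_distrib, Finset.sum_ite_eq Finset.univ i, if_pos (Finset.mem_univ i)]

lemma complete_star (n : ℕ) (hn : 0 < n) :
    IsStarSet (⊤ : SimpleGraph (Fin n)) ((n : ℝ) - 1) {⟨0, hn⟩} := by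
  apply isStarSet_of
  · rintro z ⟨hz, he⟩
    have h0 : z ⟨0, hn⟩ = 0 := hz _ (by
      intro h
      exact h (Finset.mem_singleton_self _))
    have hnp : (0 : ℝ) < n := by exact_mod_cast hn
    have h1 : ∀ i, i ≠ ⟨0, hn⟩ → (n : ℝ) * z i = ∑ j, z j := by
      intro i hi
      have := he i (by
        intro h
        exact hi (Finset.mem_singleton.1 h))
      rw [nb_top] at this
      linarith
    have h2 : (n : ℝ) * ∑ j, z j = ((n : ℝ) - 1) * ∑ j, z j := by
      have e1 : (n : ℝ) * ∑ j, z j = ∑ i : Fin n, (n : ℝ) * z i := Finset.mul_sum _ _ _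
      rw [e1, ← Finset.add_sum_erase _ _ (Finset.mem_univ (⟨0, hn⟩ : Fin n)), h0, mul_zero, zero_add]
      rw [Finset.sum_congr rfl (fun i hi => h1 i (Finset.mem_erase.1 hi).1), Finset.sum_const,
        Finset.card_erase_of_mem (Finset.mem_univ _), Finset.card_univ, Fintype.card_fin,
        nsmul_eq_mul, Nat.cast_sub hn]
      simp
    have h3 : ∑ j, z j = 0 := by linarith
    ext i
    by_cases hi : i = ⟨0, hn⟩
    · rw [hi]
      exact h0
    · have := h1 i hi
      rw [h3] at this
      rcases mul_eq_zero.1 this with h | h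
      · exact absurd h hnp.ne'
      · exact h
  · intro g
    refine ⟨fun _ => g ⟨0, hn⟩, ?_, ?_⟩
    · intro i
      rw [nb_top]
      simp
      ring
    · intro i hi
      rw [Finset.mem_singleton.1 hi]

end complete

section broom

variable (n : ℕ)

/-- The relation of the path `0 - 1 - 2 - 3` with pendant vertices `4, 5, …` at `0`. -/
def rel (a b : ℕ) : Prop := (a = 0 ∧ b = 1) ∨ (a = 1 ∧ b = 2) ∨ (a = 2 ∧ b = 3) ∨ (a = 0 ∧ 4 ≤ b)

/-- The path `P₄` with `n - 4` pendant vertices at an end. -/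
def broom (n : ℕ) : SimpleGraph (Fin n) where
  Adj i j := rel i j ∨ rel j i
  symm := ⟨fun _ _ h => h.symm⟩
  loopless := ⟨fun i h => by
    unfold rel at h
    omega⟩

variable {n}

lemma broom_adj (i j : Fin n) : (broom n).Adj i j ↔ rel i j ∨ rel j i := Iff.rfl

lemma broom_connected (hn : 5 ≤ n) : (broom n).Connected := by
  have key : ∀ i : Fin n, (broom n).Reachable i ⟨0, by omega⟩ := by
    intro i
    have a1 : (broom n).Adj ⟨1, by omega⟩ ⟨0, by omega⟩ := by
      rw [broom_adj]; unfold rel; simp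
    have a2 : (broom n).Adj ⟨2, by omega⟩ ⟨1, by omega⟩ := by
      rw [broom_adj]; unfold rel; simp
    have a3 : (broom n).Adj ⟨3, by omega⟩ ⟨2, by omega⟩ := by
      rw [broom_adj]; unfold rel; simp
    have r1 := a1.reachable
    have r2 := a2.reachable.trans r1
    have r3 := a3.reachable.trans r2
    rcases i with ⟨i, hi⟩
    by_cases h4 : 4 ≤ i
    · have a4 : (broom n).Adj ⟨i, hi⟩ ⟨0, by omega⟩ := by
        rw [broom_adj]; unfold rel; simp [h4]
      exact a4.reachable
    · have : i = 0 ∨ i = 1 ∨ i = 2 ∨ i = 3 := by omega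
      rcases this with rfl | rfl | rfl | rfl
      · exact SimpleGraph.Reachable.refl _
      · exact r1
      · exact r2
      · exact r3
  have : Nonempty (Fin n) := ⟨⟨0, by omega⟩⟩
  exact ⟨fun i j => (key i).trans (key j).symm⟩

lemma nb_one (z : Fin n → ℝ) (i k : Fin n)
    (h : ∀ j, (broom n).Adj i j ↔ j = k) : nb (broom n) z i = z k := by
  classical
  unfold nb
  rw [Finset.sum_eq_single k]
  · rw [if_pos ((h k).2 rfl)]
  · intro j _ hj
    rw [if_neg (fun h' => hj ((h j).1 h'))]
  · simp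

lemma nb_two (z : Fin n → ℝ) (i k m : Fin n) (hkm : k ≠ m)
    (h : ∀ j, (broom n).Adj i j ↔ j = k ∨ j = m) : nb (broom n) z i = z k + z m := by
  classical
  unfold nb
  have e : ∀ j, (if (broom n).Adj i j then z j else 0)
      = (if j = k then z j else 0) + (if j = m then z j else 0) := by
    intro j
    by_cases h1 : j = k
    · have h2 : j ≠ m := fun h3 => hkm (h1.symm.trans h3)
      rw [if_pos ((h j).2 (Or.inl h1)), if_pos h1, if_neg h2, add_zero]
    · by_cases h2 : j = m
      · rw [if_pos ((h j).2 (Or.inr h2)), if_neg h1, if_pos h2, zero_add]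
      · rw [if_neg (fun h' => ((h j).1 h').elim h1 h2), if_neg h1, if_neg h2, add_zero]
  simp_rw [e]
  rw [Finset.sum_add_distrib, Finset.sum_ite_eq' Finset.univ k, Finset.sum_ite_eq' Finset.univ m,
    if_pos (Finset.mem_univ _), if_pos (Finset.mem_univ _)]

/-- The pendant vertices. -/
def pend (n : ℕ) : Finset (Fin n) := Finset.univ.filter (fun i => 4 ≤ (i : ℕ))

lemma mem_pend (i : Fin n) : i ∈ pend n ↔ 4 ≤ (i : ℕ) := by simp [pend]

lemma nb_zero (hn : 5 ≤ n) (z : Fin n → ℝ) :
    nb (broom n) z ⟨0, by omega⟩ = z ⟨1, by omega⟩ + ∑ j ∈ pend n, z j := by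
  classical
  unfold nb
  have e : ∀ j : Fin n, (if (broom n).Adj ⟨0, by omega⟩ j then z j else 0)
      = (if j = (⟨1, by omega⟩ : Fin n) then z j else 0) + (if j ∈ pend n then z j else 0) := by
    intro j
    by_cases h1 : j = (⟨1, by omega⟩ : Fin n)
    · have h2 : j ∉ pend n := by
        rw [mem_pend, h1]
        simp
      have h3 : (broom n).Adj ⟨0, by omega⟩ j := by
        rw [broom_adj, h1]
        unfold rel
        simp
      rw [if_pos h3, if_pos h1, if_neg h2, add_zero]
    · by_cases h2 : j ∈ pend n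
      · have h3 : (broom n).Adj ⟨0, by omega⟩ j := by
          rw [mem_pend] at h2
          rw [broom_adj]
          unfold rel
          simp [h2]
        rw [if_pos h3, if_neg h1, if_pos h2, zero_add]
      · have h3 : ¬ (broom n).Adj ⟨0, by omega⟩ j := by
          rw [mem_pend] at h2
          rw [broom_adj]
          have h4 : (j : ℕ) ≠ 1 := fun h5 => h1 (Fin.ext h5)
          unfold rel
          simp only
          omega
        rw [if_neg h3, if_neg h1, if_neg h2, add_zero]
  simp_rw [e]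
  rw [Finset.sum_add_distrib, Finset.sum_ite_eq' Finset.univ (⟨1, by omega⟩ : Fin n),
    if_pos (Finset.mem_univ _)]
  congr 1
  rw [← Finset.sum_filter]
  apply Finset.sum_congr _ (fun _ _ => rfl)
  ext j
  simp

lemma nb_1 (hn : 5 ≤ n) (z : Fin n → ℝ) :
    nb (broom n) z ⟨1, by omega⟩ = z ⟨0, by omega⟩ + z ⟨2, by omega⟩ := by
  apply nb_two _ _ _ _ (by intro h; simp at h)
  intro j
  have : (rel 1 (j : ℕ) ∨ rel (j : ℕ) 1) ↔ ((j : ℕ) = 0 ∨ (j : ℕ) = 2) := by
    unfold rel
    omega
  rw [broom_adj, Fin.ext_iff, Fin.ext_iff]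
  exact this

lemma nb_2 (hn : 5 ≤ n) (z : Fin n → ℝ) :
    nb (broom n) z ⟨2, by omega⟩ = z ⟨1, by omega⟩ + z ⟨3, by omega⟩ := by
  apply nb_two _ _ _ _ (by intro h; simp at h)
  intro j
  have : (rel 2 (j : ℕ) ∨ rel (j : ℕ) 2) ↔ ((j : ℕ) = 1 ∨ (j : ℕ) = 3) := by
    unfold rel
    omega
  rw [broom_adj, Fin.ext_iff, Fin.ext_iff]
  exact this

lemma nb_3 (hn : 5 ≤ n) (z : Fin n → ℝ) :
    nb (broom n) z ⟨3, by omega⟩ = z ⟨2, by omega⟩ := by
  apply nb_one
  intro j
  have : (rel 3 (j : ℕ) ∨ rel (j : ℕ) 3) ↔ ((j : ℕ) = 2) := by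
    unfold rel
    omega
  rw [broom_adj, Fin.ext_iff]
  exact this

lemma nb_p (hn : 5 ≤ n) (z : Fin n → ℝ) (i : Fin n) (hi : 4 ≤ (i : ℕ)) :
    nb (broom n) z i = z ⟨0, by omega⟩ := by
  apply nb_one
  intro j
  rw [broom_adj, Fin.ext_iff]
  unfold rel
  simp only
  omega

/-- The eigenvector for given values on the pendant vertices. -/
noncomputable def vec (g : Fin n → ℝ) (i : Fin n) : ℝ :=
  if 4 ≤ (i : ℕ) then g i else if (i : ℕ) = 1 then -∑ j ∈ pend n, g j
  else if (i : ℕ) = 3 then ∑ j ∈ pend n, g j else 0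

lemma vec_eig (hn : 5 ≤ n) (g : Fin n → ℝ) (i : Fin n) : nb (broom n) (vec g) i = 0 * vec g i := by
  have hs : ∑ j ∈ pend n, vec g j = ∑ j ∈ pend n, g j := by
    apply Finset.sum_congr rfl
    intro j hj
    rw [mem_pend] at hj
    simp [vec, hj]
  rw [zero_mul]
  rcases i with ⟨i, hi⟩
  by_cases h4 : 4 ≤ i
  · rw [nb_p hn _ _ h4]
    simp [vec]
  · have : i = 0 ∨ i = 1 ∨ i = 2 ∨ i = 3 := by omega
    rcases this with rfl | rfl | rfl | rfl
    · rw [nb_zero hn, hs]
      simp [vec]
    · rw [nb_1 hn]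
      simp [vec]
    · rw [nb_2 hn]
      simp [vec]
    · rw [nb_3 hn]
      simp [vec]

lemma broom_star (hn : 5 ≤ n) : IsStarSet (broom n) 0 (pend n) := by
  apply isStarSet_of
  · rintro z ⟨hz, he⟩
    have hp : ∀ i : Fin n, 4 ≤ (i : ℕ) → z i = 0 := by
      intro i hi
      apply hz
      intro h
      exact h ((mem_pend i).2 hi)
    have hmem : ∀ i : Fin n, (i : ℕ) < 4 → i ∈ ({w | w ∉ pend n} : Set (Fin n)) := by
      intro i hi h
      rw [mem_pend] at h
      omega
    have e0 := he ⟨0, by omega⟩ (hmem _ (by simp))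
    have e1 := he ⟨1, by omega⟩ (hmem _ (by simp))
    have e2 := he ⟨2, by omega⟩ (hmem _ (by simp))
    have e3 := he ⟨3, by omega⟩ (hmem _ (by simp))
    rw [nb_zero hn, zero_mul] at e0
    rw [nb_1 hn, zero_mul] at e1
    rw [nb_2 hn, zero_mul] at e2
    rw [nb_3 hn, zero_mul] at e3
    have hs : ∑ j ∈ pend n, z j = 0 := by
      apply Finset.sum_eq_zero
      intro j hj
      exact hp j ((mem_pend j).1 hj)
    rw [hs] at e0
    ext i
    rcases i with ⟨i, hi⟩
    by_cases h4 : 4 ≤ i
    · exact hp _ h4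
    · have : i = 0 ∨ i = 1 ∨ i = 2 ∨ i = 3 := by omega
      simp only [Pi.zero_apply]
      rcases this with rfl | rfl | rfl | rfl <;> linarith
  · intro g
    refine ⟨vec g, vec_eig hn g, ?_⟩
    intro i hi
    rw [mem_pend] at hi
    simp [vec, hi]

lemma sum_vec (hn : 5 ≤ n) (g : Fin n → ℝ) : ∑ i, vec g i = ∑ j ∈ pend n, g j := by
  classical
  rw [← Finset.sum_compl_add_sum (pend n)]
  have hs : ∑ j ∈ pend n, vec g j = ∑ j ∈ pend n, g j := by
    apply Finset.sum_congr rfl
    intro j hj
    rw [mem_pend] at hj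
    simp [vec, hj]
  rw [hs]
  have h0 : ∑ j ∈ (pend n)ᶜ, vec g j = 0 := by
    have hc : (pend n)ᶜ = {(⟨0, by omega⟩ : Fin n), ⟨1, by omega⟩, ⟨2, by omega⟩, ⟨3, by omega⟩} := by
      ext j
      rw [Finset.mem_compl, mem_pend]
      simp only [Finset.mem_insert, Finset.mem_singleton, Fin.ext_iff]
      omega
    rw [hc, Finset.sum_insert (by simp), Finset.sum_insert (by simp), Finset.sum_insert (by simp),
      Finset.sum_singleton]
    simp [vec]
  rw [h0, zero_add]

lemma card_pend : (pend n).card = n - 4 := by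
  have h : (pend n).card + (Finset.univ.filter (fun i : Fin n => ¬ 4 ≤ (i : ℕ))).card = n := by
    unfold pend
    rw [Finset.card_filter_add_card_filter_not]
    simp
  by_cases hn : 4 ≤ n
  · have h2 : (Finset.univ.filter (fun i : Fin n => ¬ 4 ≤ (i : ℕ))).card = 4 := by
      have : Finset.univ.filter (fun i : Fin n => ¬ 4 ≤ (i : ℕ))
          = (Finset.univ : Finset (Fin 4)).image (fun i : Fin 4 => (⟨(i : ℕ), by omega⟩ : Fin n)) := by
        ext j
        simp only [Finset.mem_filter, Finset.mem_univ, true_and, Finset.mem_image]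
        constructor
        · intro hj
          exact ⟨⟨j, by omega⟩, rfl⟩
        · rintro ⟨a, ha⟩
          rw [← ha]
          simp
      rw [this, Finset.card_image_of_injective _ (fun a b hab => by
        have := Fin.ext_iff.1 hab
        exact Fin.ext this)]
      simp
    omega
  · have h2 : (pend n) = ∅ := by
      ext j
      rw [mem_pend]
      simp
      omega
    rw [h2]
    simp
    omega

lemma broom_main (hn : 5 ≤ n) : mainVerts (broom n) 0 (pend n) = pend n := by
  classical
  apply Finset.Subset.antisymm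
  · exact Finset.filter_subset _ _
  · intro v hv
    apply fullSum v hv (vec (fun i => if i = v then 1 else 0)) (vec_eig hn _)
    · intro i hi hiv
      rw [mem_pend] at hi
      simp [vec, hi, hiv]
    · rw [sum_vec hn, Finset.sum_ite_eq' (pend n) v, if_pos hv]
      exact one_ne_zero

end broom

/-- For every `n ≥ 1`, the largest number of `l`-main vertices in an `l`-star set, over connected
graphs of order `n` and their main eigenvalues `l`, is `max 1 (n - 4)`. -/
theorem result : ∀ n : ℕ, 1 ≤ n →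
    IsGreatest {m : ℕ | ∃ G : SimpleGraph (Fin n), G.Connected ∧ ∃ l : ℝ, IsMainEig G l ∧
      ∃ X : Finset (Fin n), IsStarSet G l X ∧ (mainVerts G l X).card = m} (max 1 (n - 4)) := by
  intro n hn
  constructor
  · by_cases h5 : 5 ≤ n
    · have hm : max 1 (n - 4) = n - 4 := max_eq_right (by omega)
      rw [hm]
      refine ⟨broom n, broom_connected h5, 0, ?_, pend n, broom_star h5, ?_⟩
      · refine ⟨vec (fun i => if i = (⟨4, by omega⟩ : Fin n) then 1 else 0), ?_, ?_⟩
        · rw [mem_Eig]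
          exact vec_eig h5 _
        · rw [sum_vec h5, Finset.sum_ite_eq' (pend n) (⟨4, by omega⟩ : Fin n),
            if_pos ((mem_pend _).2 (le_refl 4))]
          exact one_ne_zero
      · rw [broom_main h5, card_pend]
    · have hm : max 1 (n - 4) = 1 := max_eq_left (by omega)
      rw [hm]
      have hn' : 0 < n := hn
      have : Nonempty (Fin n) := ⟨⟨0, hn'⟩⟩
      have hone : ∀ i, nb (⊤ : SimpleGraph (Fin n)) (fun _ => (1 : ℝ)) i = ((n : ℝ) - 1) * 1 := by
        intro i
        rw [nb_top]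
        simp
      have hsum : ∑ _i : Fin n, (1 : ℝ) ≠ 0 := by
        simp
        omega
      have hE : (fun _ => (1 : ℝ)) ∈ Eig (⊤ : SimpleGraph (Fin n)) ((n : ℝ) - 1) := by
        rw [mem_Eig]
        exact hone
      have hstar := complete_star n hn'
      refine ⟨⊤, ?_, (n : ℝ) - 1, ?_, {⟨0, hn'⟩}, ?_, ?_⟩
      · exact SimpleGraph.connected_top
      · exact ⟨fun _ => 1, hE, hsum⟩
      · exact hstar
      · have : mainVerts (⊤ : SimpleGraph (Fin n)) ((n : ℝ) - 1) {⟨0, hn'⟩} = {⟨0, hn'⟩} := by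
          apply Finset.Subset.antisymm
          · exact mainVerts_subset _ _ _
          · intro v hv
            apply fullSum v hv (fun _ => 1) hone _ hsum
            intro i hi hiv
            rw [Finset.mem_singleton] at hi hv
            exact absurd (hi.trans hv.symm) hiv
        rw [this, Finset.card_singleton]
  · rintro m ⟨G, hG, l, -, X, hX, rfl⟩
    by_cases ht : n ≤ X.card + 3
    · have := main_le_one hG hX (by rw [Fintype.card_fin]; exact ht)
      exact this.trans (le_max_left _ _)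
    · have h1 : (mainVerts G l X).card ≤ X.card := Finset.card_le_card (mainVerts_subset _ _ _)
      have h2 : X.card ≤ n - 4 := by omega
      exact (h1.trans h2).trans (le_max_right _ _)

end Pool.Agent.Results.MP_bb681f_co.MaxMainVertices
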